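import Mathlib
set_option autoImplicit false

/-!
An integer polynomial with values in `{0, ±1, ±2}` at at least seven different integers takes the
same value at all of them; lower bounds for products of distances to different integers.
-/

namespace Pool.Agent.Y94.UG

open Polynomial

theorem eq_of_dvd_small {a d : ℤ} (h : d ∣ a) (ha : |a| ≤ 4) (hd : 5 ≤ |d|) : a = 0 := by
  by_contra h0
  have h1 : |d| ≤ |a| := by
    have h2 := Int.natAbs_le_of_dvd_ne_zero h h0
    rw [Int.abs_eq_natAbs, Int.abs_eq_natAbs]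
    exact_mod_cast h2
  omega

theorem spread {g : ℕ} {b : Fin (g + 1) → ℤ} (hb : Function.Injective b) {m M : ℤ}
    (hm : ∀ i, m ≤ b i) (hM : ∀ i, b i ≤ M) : (g : ℤ) ≤ M - m := by
  have h1 : (Finset.univ.image b) ⊆ Finset.Icc m M := by
    intro y hy
    obtain ⟨i, -, rfl⟩ := Finset.mem_image.1 hy
    exact Finset.mem_Icc.2 ⟨hm i, hM i⟩
  have h2 := Finset.card_le_card h1
  rw [Finset.card_image_of_injective _ hb, Finset.card_univ, Fintype.card_fin, Int.card_Icc] at h2
  omega

theorem values_eq {g : ℕ} (hg : 6 ≤ g) (F : ℤ[X]) (b : Fin (g + 1) → ℤ)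
    (hb : Function.Injective b) (hF : ∀ i, |F.eval (b i)| ≤ 2) (i : Fin (g + 1)) :
    F.eval (b i) = F.eval (b 0) := by
  obtain ⟨p, hp⟩ := Finite.exists_min b
  obtain ⟨q, hq⟩ := Finite.exists_max b
  have hpq : (g : ℤ) ≤ b q - b p := spread hb hp hq
  have hsmall : ∀ i j, |F.eval (b i) - F.eval (b j)| ≤ 4 := by
    intro i j
    have h1 := abs_le.1 (hF i)
    have h2 := abs_le.1 (hF j)
    rw [abs_le]
    constructor <;> linarith [h1.1, h1.2, h2.1, h2.2]
  have h1 : F.eval (b q) = F.eval (b p) := by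
    refine sub_eq_zero.1 (eq_of_dvd_small (sub_dvd_eval_sub _ _ F) (hsmall q p) ?_)
    rw [abs_of_nonneg (by omega)]
    omega
  have key : ∀ i, F.eval (b i) = F.eval (b p) := by
    intro i
    by_cases hip : b i = b p
    · rw [hip]
    by_cases hiq : b i = b q
    · rw [hiq, h1]
    obtain ⟨G, hG⟩ : (X - C (b p)) ∣ F - C (F.eval (b p)) := by
      rw [dvd_iff_isRoot, IsRoot, eval_sub, eval_C, sub_self]
    have h2 : G.eval (b q) = 0 := by
      have h3 := congrArg (fun P => P.eval (b q)) hG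
      simp only [eval_sub, eval_C, eval_mul, eval_X] at h3
      rw [h1, sub_self, eq_comm] at h3
      rcases mul_eq_zero.1 h3 with h4 | h4
      · omega
      · exact h4
    obtain ⟨G', hG'⟩ : (X - C (b q)) ∣ G := by
      rw [dvd_iff_isRoot]
      exact h2
    have h4 : F.eval (b i) - F.eval (b p) = ((b i - b p) * (b i - b q)) * G'.eval (b i) := by
      have h3 := congrArg (fun P => P.eval (b i)) hG
      rw [hG'] at h3
      simp only [eval_sub, eval_C, eval_mul, eval_X] at h3
      rw [h3]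
      ring
    refine sub_eq_zero.1 (eq_of_dvd_small (Dvd.intro _ h4.symm) (hsmall i p) ?_)
    have h5 := hp i
    have h6 := hq i
    have h7 : 1 ≤ b i - b p := by omega
    have h8 : 1 ≤ b q - b i := by omega
    have h9 : (b i - b p) * (b i - b q) = -((b i - b p) * (b q - b i)) := by ring
    rw [h9, abs_neg, abs_of_nonneg (by positivity)]
    nlinarith
  rw [key i, key 0]

/-- Comparison of products. -/
theorem prod_le_prod_swap (D D₀ : Finset ℤ) (a : ℤ → ℝ) {c : ℝ} (hc : 1 ≤ c)
    (hcard : D₀.card ≤ D.card) (hpos : ∀ d, 0 < a d) (h0 : ∀ d ∈ D₀, a d ≤ c)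
    (h1 : ∀ d, d ∉ D₀ → c ≤ a d) : ∏ d ∈ D₀, a d ≤ ∏ d ∈ D, a d := by
  rw [← Finset.prod_inter_mul_prod_sdiff D₀ D a, ← Finset.prod_inter_mul_prod_sdiff D D₀ a,
    Finset.inter_comm D D₀]
  refine mul_le_mul_of_nonneg_left ?_ (Finset.prod_nonneg fun d _ => (hpos d).le)
  have hc' : (D₀ \ D).card ≤ (D \ D₀).card := Finset.card_sdiff_le_card_sdiff_iff.2 hcard
  calc ∏ d ∈ D₀ \ D, a d ≤ ∏ _d ∈ D₀ \ D, c :=
        Finset.prod_le_prod (fun d _ => (hpos d).le) fun d hd => h0 d (Finset.mem_sdiff.1 hd).1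
    _ = c ^ (D₀ \ D).card := by rw [Finset.prod_const]
    _ ≤ c ^ (D \ D₀).card := pow_le_pow_right₀ hc hc'
    _ = ∏ _d ∈ D \ D₀, c := by rw [Finset.prod_const]
    _ ≤ ∏ d ∈ D \ D₀, a d :=
        Finset.prod_le_prod (fun d _ => by linarith) fun d hd => h1 d (Finset.mem_sdiff.1 hd).2

/-- the lower bounds for the distances -/
noncomputable def av (q : ℝ) (d : ℤ) : ℝ := if d = 0 then max |q| (1 / 8) else |q - d|

theorem av_pos {q : ℝ} (hq : |q| ≤ 1 / 2) (d : ℤ) : 0 < av q d := by
  unfold av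
  split_ifs with h
  · exact lt_max_of_lt_right (by norm_num)
  · have h1 : (1 : ℝ) ≤ |(d : ℝ)| := by
      have : (1 : ℤ) ≤ |d| := Int.one_le_abs h
      exact_mod_cast this
    have h2 : |(d : ℝ)| ≤ |q - d| + |q| := by
      have : (d : ℝ) = q - (q - d) := by ring
      calc |(d : ℝ)| = |q - (q - d)| := by rw [← this]
        _ ≤ |q| + |q - d| := abs_sub _ _
        _ = _ := add_comm _ _
    linarith

theorem prod_core {q : ℝ} (hq : |q| ≤ 1 / 2) :
    (403 / 100 : ℝ) ≤ ∏ d ∈ Finset.Icc (-3 : ℤ) 3, av q d := by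
  have e : Finset.Icc (-3 : ℤ) 3 = {-3, -2, -1, 0, 1, 2, 3} := by decide
  rw [e]
  have hq1 := abs_le.1 hq
  rw [Finset.prod_insert (by decide), Finset.prod_insert (by decide),
    Finset.prod_insert (by decide), Finset.prod_insert (by decide),
    Finset.prod_insert (by decide), Finset.prod_insert (by decide), Finset.prod_singleton]
  unfold av
  simp only [show (-3 : ℤ) ≠ 0 by decide, show (-2 : ℤ) ≠ 0 by decide,
    show (-1 : ℤ) ≠ 0 by decide, show (1 : ℤ) ≠ 0 by decide, show (2 : ℤ) ≠ 0 by decide,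
    show (3 : ℤ) ≠ 0 by decide, if_false, if_true]
  push_cast
  rw [show |q - -3| = q + 3 by rw [abs_of_pos (by linarith)]; ring,
    show |q - -2| = q + 2 by rw [abs_of_pos (by linarith)]; ring,
    show |q - -1| = q + 1 by rw [abs_of_pos (by linarith)]; ring,
    show |q - 1| = 1 - q by rw [abs_of_neg (by linarith)]; ring,
    show |q - 2| = 2 - q by rw [abs_of_neg (by linarith)]; ring,
    show |q - 3| = 3 - q by rw [abs_of_neg (by linarith)]; ring]
  have h2 : (q + 3) * ((q + 2) * ((q + 1) * (max |q| (1 / 8) * ((1 - q) * ((2 - q) * (3 - q)))))) =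
      (max |q| (1 / 8) * (1 - q ^ 2)) * ((4 - q ^ 2) * (9 - q ^ 2)) := by ring
  rw [h2]
  have hq2 : q ^ 2 ≤ 1 / 4 := by nlinarith
  have h3 : (63 / 512 : ℝ) ≤ max |q| (1 / 8) * (1 - q ^ 2) := by
    rcases le_total |q| (1 / 8) with h | h
    · rw [max_eq_right h]
      have : q ^ 2 ≤ 1 / 64 := by
        have h4 := abs_le.1 h
        nlinarith
      linarith
    · rw [max_eq_left h, ← sq_abs q]
      have h5 : 0 ≤ (|q| - 1 / 8) * (1 / 2 - |q|) :=
        mul_nonneg (by linarith) (by linarith)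
      have h6 := mul_nonneg (abs_nonneg q) h5
      nlinarith
  have h4 : (15 / 4 * (35 / 4) : ℝ) ≤ (4 - q ^ 2) * (9 - q ^ 2) :=
    mul_le_mul (by linarith) (by linarith) (by norm_num) (by linarith)
  calc (403 / 100 : ℝ) ≤ 63 / 512 * (15 / 4 * (35 / 4)) := by norm_num
    _ ≤ _ := mul_le_mul h3 h4 (by norm_num) (le_trans (by norm_num) h3)

/-- The product of the distances of a complex number to at least seven different integers, none of
them nearer than `1/8`, is larger than `4`. -/
theorem prod_dist {g : ℕ} (hg : 6 ≤ g) {b : Fin (g + 1) → ℤ} (hb : Function.Injective b) {x : ℂ}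
    (hx : ∀ i, (1 / 8 : ℝ) ≤ ‖x - (b i : ℂ)‖) :
    (403 / 100 : ℝ) ≤ ∏ i, ‖x - (b i : ℂ)‖ := by
  set n : ℤ := round x.re with hn
  set q : ℝ := x.re - n with hqdef
  have hq : |q| ≤ 1 / 2 := abs_sub_round _
  have hinj : Function.Injective fun i => b i - n := fun i j h => hb (by
    have : b i - n = b j - n := h
    omega)
  set D : Finset ℤ := Finset.univ.image fun i => b i - n with hD
  have hcard : (Finset.Icc (-3 : ℤ) 3).card ≤ D.card := by
    rw [hD, Finset.card_image_of_injective _ hinj, Finset.card_univ, Fintype.card_fin]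
    have : (Finset.Icc (-3 : ℤ) 3).card = 7 := by decide
    omega
  have hq1 := abs_le.1 hq
  have h1 := prod_le_prod_swap D (Finset.Icc (-3 : ℤ) 3) (av q) (c := 7 / 2) (by norm_num) hcard
    (av_pos hq) (fun d hd => ?_) (fun d hd => ?_)
  · refine (prod_core hq).trans (h1.trans ?_)
    rw [hD, Finset.prod_image fun i _ j _ h => hinj h]
    refine Finset.prod_le_prod (fun i _ => (av_pos hq _).le) fun i _ => ?_
    have h2 : |x.re - (b i : ℝ)| ≤ ‖x - (b i : ℂ)‖ := by
      have := Complex.abs_re_le_norm (x - (b i : ℂ))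
      simpa using this
    unfold av
    split_ifs with h
    · refine max_le ?_ (hx i)
      have h3 : b i = n := by omega
      rw [hqdef, ← h3]
      exact h2
    · have h3 : q - ((b i - n : ℤ) : ℝ) = x.re - b i := by
        rw [hqdef]
        push_cast
        ring
      rw [h3]
      exact h2
  · rw [Finset.mem_Icc] at hd
    unfold av
    split_ifs with h
    · exact max_le (by linarith) (by norm_num)
    · have h2 : (-3 : ℝ) ≤ d := by exact_mod_cast hd.1
      have h3 : (d : ℝ) ≤ 3 := by exact_mod_cast hd.2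
      rw [abs_le]
      constructor <;> linarith
  · rw [Finset.mem_Icc] at hd
    have h : d ≠ 0 := by
      rintro rfl
      exact hd ⟨by norm_num, by norm_num⟩
    unfold av
    rw [if_neg h]
    rcases lt_or_gt_of_ne h with h' | h'
    · have h2 : d ≤ -4 := by
        by_contra hcon
        exact hd ⟨by omega, by omega⟩
      have h3 : (d : ℝ) ≤ -4 := by exact_mod_cast h2
      rw [abs_of_pos (by linarith)]
      linarith
    · have h2 : 4 ≤ d := by
        by_contra hcon
        exact hd ⟨by omega, by omega⟩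
      have h3 : (4 : ℝ) ≤ d := by exact_mod_cast h2
      rw [abs_of_neg (by linarith)]
      linarith

end Pool.Agent.Y94.UG
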