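import Pool.Agent.Y94.UG.Arith
set_option autoImplicit false

/-!
The criterion of `Loops` for different integers.
-/

namespace Pool.Agent.Y94.UG

theorem log_fact : 0 ≤ 4 * Real.log (7 / 8) + 3 * Real.log (15 / 8) := by
  have h1 : 4 * Real.log (7 / 8) + 3 * Real.log (15 / 8) =
      Real.log ((7 / 8) ^ 4 * (15 / 8) ^ 3) := by
    rw [Real.log_mul (by norm_num) (by norm_num), Real.log_pow, Real.log_pow]
    push_cast
    ring
  rw [h1]
  exact Real.log_nonneg (by norm_num)

theorem crit {g : ℕ} (hg : 6 ≤ g) {b : Fin (g + 1) → ℤ} (hb : Function.Injective b)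
    (p q : Fin (g + 1)) (hpq : p ≠ q) :
    0 ≤ Real.log (|(b p : ℝ) - b q| - 1 / 8) + Real.log (|(b q : ℝ) - b p| - 1 / 8) +
      ∑ j ∈ (Finset.univ.erase p).erase q,
        Real.log (min (|(b p : ℝ) - b j| - 1 / 8) (|(b q : ℝ) - b j| - 1 / 8)) := by
  set a : ℝ := Real.log (7 / 8) with ha
  set β : ℝ := Real.log (15 / 8) with hβ
  have hfact : 0 ≤ 4 * a + 3 * β := log_fact
  have ha0 : a ≤ 0 := Real.log_nonpos (by norm_num) (by norm_num)
  have hβ0 : 0 ≤ β := Real.log_nonneg (by norm_num)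
  have hcast : ∀ i j, |(b i : ℝ) - b j| = ((|b i - b j| : ℤ) : ℝ) := fun i j => by push_cast; rfl
  have hone : ∀ i j, i ≠ j → (1 : ℤ) ≤ |b i - b j| := fun i j h =>
    Int.one_le_abs (sub_ne_zero.2 (hb.ne h))
  have hge1 : ∀ i j, i ≠ j → (7 / 8 : ℝ) ≤ |(b i : ℝ) - b j| - 1 / 8 := by
    intro i j h
    rw [hcast]
    have h1 : (1 : ℝ) ≤ ((|b i - b j| : ℤ) : ℝ) := by exact_mod_cast hone i j h
    linarith
  have hge2 : ∀ i j, 2 ≤ |b i - b j| → (15 / 8 : ℝ) ≤ |(b i : ℝ) - b j| - 1 / 8 := by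
    intro i j h
    rw [hcast]
    have h1 : (2 : ℝ) ≤ ((|b i - b j| : ℤ) : ℝ) := by exact_mod_cast h
    linarith
  set T : Finset (Fin (g + 1)) := (Finset.univ.erase p).erase q with hT
  set N : Finset (Fin (g + 1)) := T.filter fun j => |b p - b j| = 1 ∨ |b q - b j| = 1 with hN
  have hTcard : T.card = g - 1 := by
    rw [hT, Finset.card_erase_of_mem (Finset.mem_erase.2 ⟨hpq.symm, Finset.mem_univ _⟩),
      Finset.card_erase_of_mem (Finset.mem_univ _), Finset.card_univ, Fintype.card_fin]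
    omega
  have hmemT : ∀ j ∈ T, p ≠ j ∧ q ≠ j := fun j hj =>
    ⟨(Finset.ne_of_mem_erase (Finset.mem_of_mem_erase hj)).symm,
      (Finset.ne_of_mem_erase hj).symm⟩
  have hNT : N ⊆ T := Finset.filter_subset _ _
  have hsum : (N.card : ℝ) * a + ((T \ N).card : ℝ) * β ≤
      ∑ j ∈ T, Real.log (min (|(b p : ℝ) - b j| - 1 / 8) (|(b q : ℝ) - b j| - 1 / 8)) := by
    rw [← Finset.sum_sdiff hNT, add_comm]
    refine add_le_add ?_ ?_
    · rw [← nsmul_eq_mul]
      refine Finset.card_nsmul_le_sum _ _ _ fun j hj => ?_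
      obtain ⟨hj1, hj2⟩ := Finset.mem_sdiff.1 hj
      obtain ⟨h1, h2⟩ := hmemT j hj1
      have h3 : ¬ (|b p - b j| = 1 ∨ |b q - b j| = 1) := fun h =>
        hj2 (Finset.mem_filter.2 ⟨hj1, h⟩)
      push Not at h3
      have h4 := hone p j h1
      have h5 := hone q j h2
      exact Real.log_le_log (by norm_num) (le_min (hge2 p j (by omega)) (hge2 q j (by omega)))
    · rw [← nsmul_eq_mul]
      refine Finset.card_nsmul_le_sum _ _ _ fun j hj => ?_
      obtain ⟨h1, h2⟩ := hmemT j (hNT hj)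
      exact Real.log_le_log (by norm_num) (le_min (hge1 p j h1) (hge1 q j h2))
  have hcards : N.card + (T \ N).card = T.card := by
    have := Finset.card_sdiff_add_card_eq_card hNT
    omega
  have hcardim : ∀ S : Finset ℤ, (∀ j ∈ N, b j ∈ S) → N.card ≤ S.card := by
    intro S hS
    rw [← Finset.card_image_of_injective N hb]
    refine Finset.card_le_card fun y hy => ?_
    obtain ⟨j, hj, rfl⟩ := Finset.mem_image.1 hy
    exact hS j hj
  have hNmem : ∀ j ∈ N, b j ≠ b p ∧ b j ≠ b q ∧ (|b p - b j| = 1 ∨ |b q - b j| = 1) := by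
    intro j hj
    obtain ⟨h1, h2⟩ := hmemT j (hNT hj)
    exact ⟨(hb.ne h1).symm, (hb.ne h2).symm, (Finset.mem_filter.1 hj).2⟩
  by_cases h1 : |b p - b q| = 1
  · have hN2 : N.card ≤ 2 := by
      rcases (abs_eq (by norm_num : (0 : ℤ) ≤ 1)).1 h1 with h2 | h2
      · refine (hcardim {b p + 1, b q - 1} fun j hj => ?_).trans Finset.card_le_two
        obtain ⟨h3, h4, h5⟩ := hNmem j hj
        rw [Finset.mem_insert, Finset.mem_singleton]
        rcases h5 with h5 | h5 <;>
          rcases (abs_eq (by norm_num : (0 : ℤ) ≤ 1)).1 h5 with h6 | h6 <;> omega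
      · refine (hcardim {b p - 1, b q + 1} fun j hj => ?_).trans Finset.card_le_two
        obtain ⟨h3, h4, h5⟩ := hNmem j hj
        rw [Finset.mem_insert, Finset.mem_singleton]
        rcases h5 with h5 | h5 <;>
          rcases (abs_eq (by norm_num : (0 : ℤ) ≤ 1)).1 h5 with h6 | h6 <;> omega
    have h2 : a ≤ Real.log (|(b p : ℝ) - b q| - 1 / 8) :=
      Real.log_le_log (by norm_num) (hge1 p q hpq)
    have h3 : a ≤ Real.log (|(b q : ℝ) - b p| - 1 / 8) :=
      Real.log_le_log (by norm_num) (hge1 q p hpq.symm)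
    have h4 : (N.card : ℝ) ≤ 2 := by exact_mod_cast hN2
    have h5 : (3 : ℝ) ≤ ((T \ N).card : ℝ) := by
      have : 3 ≤ (T \ N).card := by omega
      exact_mod_cast this
    have h6 : 2 * a ≤ (N.card : ℝ) * a := mul_le_mul_of_nonpos_right h4 ha0
    have h7 : 3 * β ≤ ((T \ N).card : ℝ) * β := mul_le_mul_of_nonneg_right h5 hβ0
    linarith
  · have h0 := hone p q hpq
    have h0' : |b q - b p| = |b p - b q| := abs_sub_comm _ _
    have hN4 : N.card ≤ 4 := by
      refine (hcardim {b p - 1, b p + 1, b q - 1, b q + 1} fun j hj => ?_).trans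
        Finset.card_le_four
      obtain ⟨h3, h4, h5⟩ := hNmem j hj
      simp only [Finset.mem_insert, Finset.mem_singleton]
      rcases h5 with h5 | h5 <;>
        rcases (abs_eq (by norm_num : (0 : ℤ) ≤ 1)).1 h5 with h6 | h6 <;> omega
    have h2 : β ≤ Real.log (|(b p : ℝ) - b q| - 1 / 8) :=
      Real.log_le_log (by norm_num) (hge2 p q (by omega))
    have h3 : β ≤ Real.log (|(b q : ℝ) - b p| - 1 / 8) :=
      Real.log_le_log (by norm_num) (hge2 q p (by omega))
    have h4 : (N.card : ℝ) ≤ 4 := by exact_mod_cast hN4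
    have h5 : (1 : ℝ) ≤ ((T \ N).card : ℝ) := by
      have : 1 ≤ (T \ N).card := by omega
      exact_mod_cast this
    have h6 : 4 * a ≤ (N.card : ℝ) * a := mul_le_mul_of_nonpos_right h4 ha0
    have h7 : 1 * β ≤ ((T \ N).card : ℝ) * β := mul_le_mul_of_nonneg_right h5 hβ0
    linarith

end Pool.Agent.Y94.UG
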