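import Mathlib
set_option autoImplicit false

/-!
A criterion with two rows for the nonvanishing of the determinant of row differences.
-/

namespace Pool.Agent.Y94.UG

open Matrix

/-- If all row sums of the real `(g + 1) × (g + 1)` matrix `I` are equal to `κ` and, for all
`p ≠ q`, `I p q + I q p + ∑ max (I p j) (I q j) < κ` (sum over the other `j`), then the `g × g`
matrix of the differences of the rows to the row `0`, without the column `0`, is nonsingular. -/
theorem det_ne_zero {g : ℕ} (I : Fin (g + 1) → Fin (g + 1) → ℝ) {κ : ℝ}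
    (hrow : ∀ i, ∑ j, I i j = κ)
    (h : ∀ p q, p ≠ q → I p q + I q p +
      ∑ j ∈ (Finset.univ.erase p).erase q, max (I p j) (I q j) < κ) :
    (Matrix.of fun j k : Fin g => I k.succ j.succ - I 0 j.succ).det ≠ 0 := by
  intro hdet
  obtain ⟨v, hv0, hv⟩ := Matrix.exists_vecMul_eq_zero_iff.2 hdet
  set c : Fin (g + 1) → ℝ := Fin.cons 0 v with hc
  have hC : ∀ i, ∑ j, c j * I i j = ∑ j, c j * I 0 j := by
    intro i
    refine Fin.cases rfl (fun k => ?_) i
    have h1 := congrFun hv k
    rw [Matrix.vecMul, dotProduct, Pi.zero_apply] at h1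
    rw [Fin.sum_univ_succ, Fin.sum_univ_succ, hc]
    simp only [Fin.cons_zero, Fin.cons_succ, zero_mul, zero_add]
    rw [← sub_eq_zero, ← Finset.sum_sub_distrib, ← h1]
    refine Finset.sum_congr rfl fun j _ => ?_
    rw [Matrix.of_apply]
    ring
  obtain ⟨p, -, hp⟩ := Finset.exists_max_image Finset.univ c ⟨0, Finset.mem_univ _⟩
  obtain ⟨q, -, hq⟩ := Finset.exists_min_image Finset.univ c ⟨0, Finset.mem_univ _⟩
  have hpq : c p = c q := by
    by_contra hne
    have hlt : c q < c p := lt_of_le_of_ne (hq p (Finset.mem_univ _)) (Ne.symm hne)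
    have hpq : p ≠ q := fun h => hne (by rw [h])
    have hqmem : q ∈ Finset.univ.erase p :=
      Finset.mem_erase.2 ⟨hpq.symm, Finset.mem_univ _⟩
    have hsplit : ∀ f : Fin (g + 1) → ℝ, ∑ j, f j =
        f p + (f q + ∑ j ∈ (Finset.univ.erase p).erase q, f j) := by
      intro f
      rw [Finset.add_sum_erase _ _ hqmem, Finset.add_sum_erase _ _ (Finset.mem_univ p)]
    have h0 : ∑ j, (c j - c q) * (I p j - I q j) = 0 := by
      have e : ∀ j, (c j - c q) * (I p j - I q j) =
          (c j * I p j - c j * I q j) - c q * (I p j - I q j) := fun j => by ring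
      simp only [e]
      rw [Finset.sum_sub_distrib, Finset.sum_sub_distrib, ← Finset.mul_sum,
        Finset.sum_sub_distrib, hC p, hC q, hrow p, hrow q]
      ring
    rw [hsplit, sub_self, zero_mul, zero_add] at h0
    have hs : 0 < c p - c q := sub_pos.2 hlt
    have h1 : (c p - c q) * ∑ j ∈ (Finset.univ.erase p).erase q,
        (I p j - max (I p j) (I q j)) ≤
        ∑ j ∈ (Finset.univ.erase p).erase q, (c j - c q) * (I p j - I q j) := by
      rw [Finset.mul_sum]
      refine Finset.sum_le_sum fun j _ => ?_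
      have h2 : 0 ≤ c j - c q := sub_nonneg.2 (hq j (Finset.mem_univ _))
      have h3 : c j - c q ≤ c p - c q := sub_le_sub_right (hp j (Finset.mem_univ _)) _
      rcases le_total (I q j) (I p j) with h4 | h4
      · rw [max_eq_left h4, sub_self, mul_zero]
        exact mul_nonneg h2 (sub_nonneg.2 h4)
      · rw [max_eq_right h4]
        nlinarith
    rw [Finset.sum_sub_distrib] at h1
    have h2 := hrow p
    rw [hsplit] at h2
    have h3 := h p q hpq
    have h4 : 0 < (I p p - I q p) + (∑ j ∈ (Finset.univ.erase p).erase q, I p j -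
        ∑ j ∈ (Finset.univ.erase p).erase q, max (I p j) (I q j)) := by linarith
    have h5 := mul_pos hs h4
    rw [mul_add] at h5
    linarith
  have h7 : ∀ j, c j = c p := fun j =>
    le_antisymm (hp j (Finset.mem_univ _)) (hpq ▸ hq j (Finset.mem_univ _))
  refine hv0 (funext fun k => ?_)
  have h8 : c k.succ = c 0 := (h7 _).trans (h7 0).symm
  rw [hc] at h8
  simpa using h8

end Pool.Agent.Y94.UG
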