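import Pool.Agent.Y94.UG.Loops
import Pool.Agent.Y94.UG.Crit
set_option autoImplicit false

/-!
Auxiliary facts: special integers, the shape of the polynomial, the separation property.
-/

namespace Pool.Agent.Y94.UG

open Polynomial

open Pool.Agent.TH826.UH

/-- (from the starting result `UniformHyperelliptic`) -/
theorem exists_zeta {t : ℤ} (ht : |t| ≤ 2) : ∃ (ζ : ℂ) (k : ℕ), k ≠ 0 ∧ ζ ^ k = 1 ∧
    (t : ℂ) = ζ + ζ⁻¹ := by
  obtain ⟨w, hw⟩ := IsAlgClosed.exists_pow_nat_eq ((t : ℂ) ^ 2 / 4 - 1) (n := 2) (by norm_num)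
  set ζ : ℂ := (t : ℂ) / 2 + w with hζ
  have h1 : ζ ^ 2 - t * ζ + 1 = 0 := by
    rw [hζ]
    linear_combination hw
  have h0 : ζ ≠ 0 := by
    intro h
    rw [h] at h1
    norm_num at h1
  have h2 : (t : ℂ) = ζ + ζ⁻¹ := by
    field_simp
    linear_combination -h1
  refine ⟨ζ, 12, by norm_num, ?_, h2⟩
  rw [abs_le] at ht
  obtain ⟨ht1, ht2⟩ := ht
  clear_value ζ
  interval_cases t
  · have h3 : (ζ + 1) ^ 2 = 0 := by push_cast at h1; linear_combination h1
    have h4 : ζ = -1 := by linear_combination pow_eq_zero_iff (two_ne_zero) |>.1 h3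
    rw [h4]
    norm_num
  · have h3 : ζ ^ 3 = 1 := by push_cast at h1; linear_combination (ζ - 1) * h1
    calc ζ ^ 12 = (ζ ^ 3) ^ 4 := by ring
      _ = 1 := by rw [h3, one_pow]
  · have h3 : ζ ^ 2 = -1 := by push_cast at h1; linear_combination h1
    calc ζ ^ 12 = (ζ ^ 2) ^ 6 := by ring
      _ = 1 := by rw [h3]; norm_num
  · have h3 : ζ ^ 3 = -1 := by push_cast at h1; linear_combination (ζ + 1) * h1
    calc ζ ^ 12 = (ζ ^ 3) ^ 4 := by ring
      _ = 1 := by rw [h3]; norm_num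
  · have h3 : (ζ - 1) ^ 2 = 0 := by push_cast at h1; linear_combination h1
    have h4 : ζ = 1 := by linear_combination pow_eq_zero_iff (two_ne_zero) |>.1 h3
    rw [h4]
    norm_num

variable {g : ℕ}

/-- the shape of the polynomial -/
theorem shape (hg : 6 ≤ g) {F : ℤ[X]} (hdeg : F.natDegree = g + 1) {b : Fin (g + 1) → ℤ}
    (hb : Function.Injective b) (hF : ∀ i, |F.eval (b i)| ≤ 2) :
    F.map (Int.castRingHom ℂ) = C ((F.eval (b 0) : ℤ) : ℂ) +
      C ((F.leadingCoeff : ℤ) : ℂ) * ∏ i, (X - C ((b i : ℤ) : ℂ)) := by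
  have hinj : Function.Injective (Int.castRingHom ℂ) := Int.cast_injective
  set P : ℂ[X] := F.map (Int.castRingHom ℂ) - C ((F.eval (b 0) : ℤ) : ℂ) with hP
  have hFdeg : (F.map (Int.castRingHom ℂ)).natDegree = g + 1 := by
    rw [natDegree_map_eq_of_injective hinj, hdeg]
  have hPdeg : P.natDegree = g + 1 := by
    rw [hP, natDegree_sub_C, hFdeg]
  have hP0 : P ≠ 0 := by
    intro h
    rw [h, natDegree_zero] at hPdeg
    omega
  have hroot : ∀ i, P.eval ((b i : ℤ) : ℂ) = 0 := by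
    intro i
    have h1 : (F.map (Int.castRingHom ℂ)).eval ((b i : ℤ) : ℂ) = ((F.eval (b i) : ℤ) : ℂ) := by
      have h2 := Polynomial.eval_map_apply (p := F) (Int.castRingHom ℂ) (b i)
      simpa using h2
    rw [hP, eval_sub, eval_C, h1, values_eq hg F b hb hF i, sub_self]
  have hbinj : Function.Injective fun i => ((b i : ℤ) : ℂ) := fun i j h => hb (by
    have : ((b i : ℤ) : ℂ) = ((b j : ℤ) : ℂ) := h
    exact_mod_cast this)
  have h1 := eq_lead_mul_prod hP0 hPdeg hbinj hroot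
  have hlead : P.leadingCoeff = ((F.leadingCoeff : ℤ) : ℂ) := by
    have h2 : P.leadingCoeff = (F.map (Int.castRingHom ℂ)).leadingCoeff := by
      rw [hP]
      refine leadingCoeff_sub_of_degree_lt ?_
      refine lt_of_le_of_lt degree_C_le ?_
      rw [← natDegree_pos_iff_degree_pos, hFdeg]
      omega
    rw [h2, leadingCoeff_map_of_injective hinj]
    rfl
  rw [hlead] at h1
  rw [← h1, hP]
  ring

theorem exists_sepd (hg : 6 ≤ g) {F : ℤ[X]} (hdeg : F.natDegree = g + 1)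
    {b : Fin (g + 1) → ℤ} (hb : Function.Injective b) (hF : ∀ i, |F.eval (b i)| ≤ 2) :
    ∃ η, Sepd (F.map (Int.castRingHom ℂ)) (fun i => ((b i : ℤ) : ℂ)) (1 / 8) η := by
  have hlam0 : F.leadingCoeff ≠ 0 := by
    rw [Ne, leadingCoeff_eq_zero]
    rintro rfl
    rw [natDegree_zero] at hdeg
    omega
  have hlam : ((F.leadingCoeff : ℤ) : ℂ) ≠ 0 := Int.cast_ne_zero.2 hlam0
  have hlam1 : (1 : ℝ) ≤ ‖((F.leadingCoeff : ℤ) : ℂ)‖ := by
    rw [Complex.norm_intCast]
    have := Int.one_le_abs hlam0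
    exact_mod_cast this
  have ht : ‖((F.eval (b 0) : ℤ) : ℂ)‖ ≤ 2 := by
    rw [Complex.norm_intCast]
    exact_mod_cast hF 0
  refine sepd_fam (b := fun i => ((b i : ℤ) : ℂ)) hlam (shape hg hdeg hb hF)
    (B := 403 / 100) (by norm_num) (fun i j hij => ?_) ht (fun x hx => prod_dist hg hb hx) ?_
  · have h1 : (1 : ℤ) ≤ |b i - b j| := Int.one_le_abs (sub_ne_zero.2 (hb.ne hij))
    have h2 : ‖((b i : ℤ) : ℂ) - ((b j : ℤ) : ℂ)‖ = ((|b i - b j| : ℤ) : ℝ) := by
      rw [← Int.cast_sub, Complex.norm_intCast, Int.cast_abs]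
    rw [h2]
    have h3 : (1 : ℝ) ≤ ((|b i - b j| : ℤ) : ℝ) := by exact_mod_cast h1
    linarith
  · nlinarith

end Pool.Agent.Y94.UG
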